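import Mathlib
import Pool.Agent.H.MP_3e1815_co.A

namespace Pool.Agent.Results.MP_d44e62_co.Counter

open SimpleGraph

/-- `H` has an `F`-free colouring with `k` colours: no colour class contains an induced copy of `F`. -/
def FreeCol {α V : Type} (F : SimpleGraph α) (H : SimpleGraph V) (k : ℕ) : Prop :=
  ∃ c : V → Fin k, ∀ (e : F ↪g H) (i : Fin k), ¬ ∀ v, c (e v) = i

/-- `F` and `G` are `n`-chromatically related. -/
def Related {α β : Type} (F : SimpleGraph α) (G : SimpleGraph β) (n : ℕ) : Prop :=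
  ∃ (V : Type) (_ : Fintype V) (H : SimpleGraph V),
    IsLeast {k | FreeCol F H k} n ∧ IsLeast {k | FreeCol G H k} n

open Pool.Agent.H.MP_3e1815_co in
theorem result : ∃ (F : SimpleGraph (Fin 4)) (G : SimpleGraph (Fin 19)),
    F.Connected ∧ G.Connected ∧ Related F G 2 ∧ ¬ Related F G 3 := by
  obtain ⟨e⟩ := F_in_G
  have h1 : ∀ {k : ℕ} (c : Fin 19 → Fin k), ¬ 2 ≤ k → ∀ v, c v = c 0 := by
    intro k c hk v
    have h1 := (c v).isLt
    have h2 := (c 0).isLt
    ext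
    omega
  refine ⟨F, G, F_conn, G_conn, ⟨Fin 19, inferInstance, G, ⟨G_col, ?_⟩, ?_, ?_⟩, ?_⟩
  · rintro k ⟨c, hc⟩
    by_contra hk
    exact hc e (c 0) (fun v => h1 c hk _)
  · obtain ⟨c, hc⟩ := G_col
    exact ⟨c, fun e' i h => hc (e.trans e') i (fun v => h (e v))⟩
  · rintro k ⟨c, hc⟩
    by_contra hk
    exact hc (RelEmbedding.refl _) (c 0) (fun v => h1 c hk _)
  · rintro ⟨V, -, H, ⟨⟨c, hc⟩, -⟩, -, h⟩
    have : 3 ≤ 2 := h (three_two H c hc)
    omega

end Pool.Agent.Results.MP_d44e62_co.Counter
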